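import Pool.Agent.Work.MP_609cce_lc_key.KStage

/-!
# The functional: complete problems of PSPACE and of NP; membership in UP
-/

namespace ORK

open ORDist ORD O2PP PTime

open Classical in
/-- the functional of a complete problem of NP -/
noncomputable def FN (Mach : ℕ → OProc) (B : Str → Bool) (M : ℕ) (y : Str) : Bool :=
  decide (∃ w : Str, w.length ≤ (unpairS (unpairS y).2).2.length ∧
    sim B (Mach (unpairS y).1.length) (pairStr ((unpairS (unpairS y).2).1, w)) M [] = true)

/-- the functional of both problems -/
noncomputable def FK (Mach : ℕ → OProc) (B : Str → Bool) (M : ℕ) : Str → Bool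
  | [] => false
  | false :: y => FP Mach B M y
  | true :: y => FN Mach B M y

theorem loc_FK (Mach : ℕ → OProc) : Loc (FK Mach) := by
  intro B B' M y h
  match y with
  | [] => rfl
  | false :: y => exact loc_FP Mach B B' M y h
  | true :: y =>
    have e : (fun w : Str => w.length ≤ (unpairS (unpairS y).2).2.length ∧
        sim B (Mach (unpairS y).1.length) (pairStr ((unpairS (unpairS y).2).1, w)) M [] = true) =
        fun w : Str => w.length ≤ (unpairS (unpairS y).2).2.length ∧
        sim B' (Mach (unpairS y).1.length) (pairStr ((unpairS (unpairS y).2).1, w)) M [] = true :=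
      funext fun w => by rw [sim_congr _ _ M [] h]
    show FN Mach B M y = FN Mach B' M y
    unfold FN
    rw [e]

/-- the reduction for NP -/
theorem np_red {Mach : ℕ → OProc}
    (hMach : ∀ M : OProc, PolyTime pairStr actStr M → ∃ e, Mach e = M)
    {A : Str → Bool} {L : Set Str} (hL : InNPO A L) :
    ∃ (t : Polynomial ℕ) (y : Str → Str), PT y ∧
      ∀ x, x ∈ L ↔ FK Mach A (t.eval x.length) (y x) = true := by
  obtain ⟨V, m, ⟨M, hM, p2, hp2⟩, hV⟩ := hL
  obtain ⟨e, he⟩ := hMach M hM
  obtain ⟨s, hs⟩ := exists_act_bound (pt_of_polyTime hM)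
  let N0 : Polynomial ℕ := 2 * Polynomial.X + 1 + m
  let tP : Polynomial ℕ := p2.comp N0 * s.comp (N0 + p2.comp N0)
  -- the clocked simulation computes the verifier
  have key : ∀ x b : Str, b.length ≤ m.eval x.length →
      sim A (Mach e) (pairStr (x, b)) (tP.eval x.length) [] = V (x, b) := by
    intro x b hb
    obtain ⟨k, hk, h1, h2⟩ := hp2 (x, b)
    have hN : (pairStr (x, b)).length ≤ N0.eval x.length := by
      rw [pairStr_len]
      simp only [N0, Polynomial.eval_add, Polynomial.eval_mul, Polynomial.eval_X,
        Polynomial.eval_ofNat, Polynomial.eval_one]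
      omega
    have hk2 : k ≤ p2.eval (N0.eval x.length) := hk.trans (eval_mono p2 hN)
    have hBd : ∀ j < k, (M (pairStr (x, b), answers A M (pairStr (x, b)) j)).2.length + 1 ≤
        s.eval (N0.eval x.length + p2.eval (N0.eval x.length)) := by
      intro j hj
      refine (hs _ _).trans (eval_mono s ?_)
      rw [length_answers]
      omega
    have h3 := sim_of_run h1 h2 hBd k 0 (by omega) (tP.eval x.length) (by
      simp only [tP, Polynomial.eval_mul, Polynomial.eval_comp, Polynomial.eval_add]
      exact Nat.mul_le_mul_right _ hk2)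
    rw [he]
    refine h3.trans ?_
    cases hv : V (x, b) <;> simp [hv]
  refine ⟨tP, fun x => true :: pairStr (List.replicate e true,
    pairStr (x, List.replicate (m.eval x.length) true)), ?_, fun x => ?_⟩
  · exact (PT.const true).cons (pt_pairStr_comp (PT.const _)
      (pt_pairStr_comp PT.id (pt_replB (PT.polyEval m PT.id.length) true)))
  · simp only [FK, FN, unpairS_pairStr, List.length_replicate, decide_eq_true_eq]
    rw [hV x]
    refine exists_congr fun b => and_congr_right fun hb => ?_
    rw [key x b hb]

/-- the reduction for PSPACE -/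
theorem ps_red {Mach : ℕ → OProc}
    (hMach : ∀ M : OProc, PolyTime pairStr actStr M → ∃ e, Mach e = M)
    {A : Str → Bool} {L : Set Str} (hL : InPSPACEO A L) :
    ∃ (t : Polynomial ℕ) (y : Str → Str), PT y ∧
      ∀ x, x ∈ L ↔ FK Mach A (t.eval x.length) (y x) = true := by
  obtain ⟨t, y, hy, h⟩ := pspace_red hMach hL
  exact ⟨t, fun x => false :: y x, (PT.const false).cons hy, h⟩

variable {F : (Str → Bool) → ℕ → Str → Bool} {κ : ℕ → Str}

/-- the verifier for the value `σ` -/
def VU (B : Str → Bool) (t : Polynomial ℕ) (y : Str → Str) (σ : Bool) (z : Str × Str) : Bool :=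
  decide (z.2.length = t.eval z.1.length) &&
    (B (false :: z.2) && (bif σ then B (true :: pairStr (z.2, y z.1))
      else !B (true :: pairStr (z.2, y z.1))))

theorem polyTimeO_VU (B : Str → Bool) (t : Polynomial ℕ) {y : Str → Str} (hy : PT y) (σ : Bool) :
    PolyTimeO B pairStr (fun z => [VU B t y σ z]) := by
  have hx : PT (fun s : Str => (unpairS s).1) := (PT.unpairS PT.id).fst'
  have hw : PT (fun s : Str => (unpairS s).2) := (PT.unpairS PT.id).snd'
  refine polyTimeO_list (qs := fun s => [false :: (unpairS s).2,
      true :: pairStr ((unpairS s).2, y (unpairS s).1)])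
    (out := fun r => [decide ((unpairS r.1).2.length = t.eval (unpairS r.1).1.length) &&
      (r.2.getD 0 false && (bif σ then r.2.getD 1 false else !r.2.getD 1 false))]) ?_ ?_ ?_
  · exact ((PT.const false).cons hw).cons
      (((PT.const true).cons (pt_pairStr_comp hw (hy.comp hx))).cons (PT.const []))
  · exact ((PT.natEq (hw.comp PT.fst).length (PT.polyEval t (hx.comp PT.fst).length)).and
      ((PT.snd.getD (PT.const 0) (PT.const false)).and
        (PT.cond (PT.const σ) (PT.snd.getD (PT.const 1) (PT.const false))
          (PT.snd.getD (PT.const 1) (PT.const false)).not))).cons (PT.const [])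
  · rintro ⟨x, w⟩
    simp only [unpairS_pairStr, List.map_cons, List.map_nil, VU]
    rfl

theorem key_unique (hF : Loc F) {M : ℕ} {w : Str} (hw : w.length = M)
    (h : orcK F κ (false :: w) = true) : w = κ M := by
  rw [orcK_key hF, decide_eq_true_eq, hw] at h
  exact h

/-- the languages given by the functional are in UP -/
theorem upo_of_F (hF : Loc F) (hκ : ∀ M, (κ M).length = M) (t : Polynomial ℕ) {y : Str → Str}
    (hy : PT y) (σ : Bool) {L : Set Str}
    (hL : ∀ x, x ∈ L ↔ F (orcK F κ) (t.eval x.length) (y x) = σ) : InUPO (orcK F κ) L := by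
  refine ⟨VU (orcK F κ) t y σ, t, polyTimeO_VU _ t hy σ, fun x => ?_, ?_⟩
  · rw [hL x]
    constructor
    · intro h
      refine ⟨κ (t.eval x.length), (hκ _).le, ?_⟩
      unfold VU
      simp only
      rw [hκ, orcK_key hF, hκ, orcK_table hF hκ, h]
      cases σ <;> simp
    · rintro ⟨w, _, h⟩
      unfold VU at h
      simp only [Bool.and_eq_true, decide_eq_true_eq] at h
      obtain ⟨h1, h2, h3⟩ := h
      have h4 := key_unique hF h1 h2
      subst h4
      rw [orcK_table hF hκ] at h3
      cases σ
      · simpa using h3
      · simpa using h3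
  · intro x w w' _ _ h h'
    unfold VU at h h'
    simp only [Bool.and_eq_true, decide_eq_true_eq] at h h'
    rw [key_unique hF h.1 h.2.1, key_unique hF h'.1 h'.2.1]

theorem upo_both (hF : Loc F) (hκ : ∀ M, (κ M).length = M) {t : Polynomial ℕ} {y : Str → Str}
    (hy : PT y) {L : Set Str} (hL : ∀ x, x ∈ L ↔ F (orcK F κ) (t.eval x.length) (y x) = true) :
    InUPO (orcK F κ) L ∧ InUPO (orcK F κ) Lᶜ := by
  refine ⟨upo_of_F hF hκ t hy true hL, upo_of_F hF hκ t hy false fun x => ?_⟩
  rw [Set.mem_compl_iff, hL x, Bool.not_eq_true]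

theorem langK_inNPO (hF : Loc F) (hκ : ∀ M, (κ M).length = M) :
    InNPO (orcK F κ) (langK κ) := by
  have hx : PT (fun s : Str => unpairS (unpairS s).1) := PT.unpairS (PT.unpairS PT.id).fst'
  have hw : PT (fun s : Str => (unpairS s).2) := (PT.unpairS PT.id).snd'
  refine ⟨fun z => decide (z.2.length = (unpairS z.1).1.length) && (orcK F κ (false :: z.2) &&
      decide ((unpairS z.1).2 = z.2.take (unpairS z.1).2.length)), Polynomial.X, ?_, fun x => ?_⟩
  · refine polyTimeO_list (qs := fun s => [false :: (unpairS s).2])
      (out := fun r => [decide ((unpairS r.1).2.length = (unpairS (unpairS r.1).1).1.length) &&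
        (r.2.getD 0 false && decide ((unpairS (unpairS r.1).1).2 =
          (unpairS r.1).2.take (unpairS (unpairS r.1).1).2.length))]) ?_ ?_ ?_
    · exact ((PT.const false).cons hw).cons (PT.const [])
    · have h1 : PT (fun r : Str × Str => unpairS (unpairS r.1).1) := hx.comp PT.fst
      have h2 : PT (fun r : Str × Str => (unpairS r.1).2) := hw.comp PT.fst
      exact ((PT.natEq h2.length h1.fst'.length).and
        ((PT.snd.getD (PT.const 0) (PT.const false)).and
          (PT.eq h1.snd' (h2.take h1.snd'.length)))).cons (PT.const [])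
    · rintro ⟨x, w⟩
      simp only [unpairS_pairStr, List.map_cons, List.map_nil]
      rfl
  · rw [Polynomial.eval_X]
    show (unpairS x).2 <+: κ (unpairS x).1.length ↔ _
    rw [List.prefix_iff_eq_take]
    simp only [Bool.and_eq_true, decide_eq_true_eq]
    constructor
    · intro h
      refine ⟨κ (unpairS x).1.length, ?_, hκ _, ?_, h⟩
      · rw [hκ]
        exact unpairS_fst_length x
      · rw [orcK_key hF, hκ]
        simp
    · rintro ⟨w, _, h1, h2, h3⟩
      rw [key_unique hF h1 h2] at h3
      exact h3

end ORK
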