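import Pool.Agent.Work.MP_609cce_lc_key.KFun

/-!
# Assembly: an oracle with PSPACE = UP and without distillations
-/

namespace ORK

open ORDist ORD O2PP PTime

/-- the oracle meets all requirements -/
theorem exists_keys {F : (Str → Bool) → ℕ → Str → Bool} (hF : Loc F) :
    ∃ κ : ℕ → Str, (∀ M, (κ M).length = M) ∧
      ∀ Mf MD : OProc, PT Mf → PT MD → ∀ (pf pD q p : Polynomial ℕ) (n₀ : ℕ),
        Req (orcK F κ) (langK κ) Mf MD pf pD q p n₀ := by
  have hc : Countable {M : OProc // PT M} :=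
    (countable_PT (α := Str × Str) (β := Bool × Str)).to_subtype
  have hp := countable_poly
  obtain ⟨κ, h1, h2⟩ := exists_generic
    (ι := {M : OProc // PT M} × {M : OProc // PT M} × Polynomial ℕ × Polynomial ℕ ×
      Polynomial ℕ × Polynomial ℕ × ℕ) (fun M (w : Str) => w.length = M)
    (fun M => List.replicate M true) (fun M => List.length_replicate)
    (fun e κ => Req (orcK F κ) (langK κ) e.1.1 e.2.1.1 e.2.2.1 e.2.2.2.1 e.2.2.2.2.1
      e.2.2.2.2.2.1 e.2.2.2.2.2.2)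
    (fun e κ b hκ => stage hF _ _ _ _ _ _ _ κ b hκ)
  exact ⟨κ, h1, fun Mf MD hf hD pf pD q p n₀ => h2 (⟨Mf, hf⟩, ⟨MD, hD⟩, pf, pD, q, p, n₀)⟩

variable {B : Str → Bool} {L : Set Str}

/-- the language is not in P -/
theorem not_inPO (hR : ∀ Mf MD : OProc, PT Mf → PT MD →
    ∀ (pf pD q p : Polynomial ℕ) (n₀ : ℕ), Req B L Mf MD pf pD q p n₀) : ¬ InPO B L := by
  rintro ⟨V, hV, hL⟩
  obtain ⟨M, pf, _, hM, hev, _⟩ := exists_ev hV
  let MD : OProc := fun z => (false, [(unpairS z.1).1.headD false ||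
    (unpairS (unpairS z.1).2).1.headD false])
  have hMD : PT MD := by
    have h1 : PT (fun z : Str × Str => unpairS z.1) := PT.unpairS PT.fst
    exact (PT.const false).pair (((h1.fst'.headD (PT.const false)).or
      ((PT.unpairS h1.snd').fst'.headD (PT.const false))).cons (PT.const []))
  have hfK : fK B M pf 1 = fun z => [V z] := by
    funext z
    unfold fK
    rw [← hev z]
    simp
  have hdK : ∀ a b : Bool, dK B MD 0 [[a], [b]] = [a || b] := by
    intro a b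
    unfold dK
    rw [Polynomial.eval_zero, ev]
    simp [MD, seqBits, unpairS_pairStr]
  obtain ⟨n, _, h⟩ := hR M MD hM hMD pf 0 1 2 0
  obtain ⟨zs, zs', h1, h2, h3, h4, _, _, h7⟩ := h 2 (by norm_num) (by simp)
  rw [hfK] at h7
  obtain ⟨a, b, rfl⟩ := List.length_eq_two.1 h1
  obtain ⟨a', b', rfl⟩ := List.length_eq_two.1 h2
  simp only [List.map_cons, List.map_nil, hdK, List.length_singleton] at h7
  have h8 : (V a || V b) = true := by
    obtain ⟨z, hz, hzL⟩ := h3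
    have hv := (hL z).1 hzL
    rcases List.mem_cons.1 hz with rfl | hz
    · rw [hv, Bool.true_or]
    · rw [List.mem_singleton] at hz
      subst hz
      rw [hv, Bool.or_true]
  have h9 : (V a' || V b') = false := by
    have ha := h4 a' (by simp)
    have hb := h4 b' (by simp)
    rw [hL, Bool.not_eq_true] at ha hb
    rw [ha, hb, Bool.or_false]
  rw [h8, h9] at h7
  rcases h7 with h7 | h7 | h7
  · exact absurd h7 (by simp)
  · omega
  · omega

/-- no compression of an OR -/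
theorem no_or (hR : ∀ Mf MD : OProc, PT Mf → PT MD →
      ∀ (pf pD q p : Polynomial ℕ) (n₀ : ℕ), Req B L Mf MD pf pD q p n₀) (hL : InNPO B L)
    {R : Set Str} (hRh : NPHardO B R) {R' : Set Str} {D : List Str → Str}
    (hD : PolyTimeO B seqBits D) (hc : ∀ xs : List Str, xs ≠ [] → (D xs ∈ R' ↔ ∃ x ∈ xs, x ∈ R))
    (p : Polynomial ℕ) (n₀ : ℕ) : ∃ n ≥ n₀, ∀ m, 1 ≤ m → m ≤ p.eval n →
      ∃ xs : List Str, xs.length = m ∧ (∀ x ∈ xs, x.length ≤ n) ∧ m ≤ (D xs).length := by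
  obtain ⟨f, hf, hfL⟩ := hRh L hL
  obtain ⟨Mf, pf, qf, hMf, hevf, hlenf⟩ := exists_ev hf
  obtain ⟨MD, pD, _, hMD, hevD, _⟩ := exists_ev hD
  obtain ⟨n, hn, h⟩ := hR Mf MD hMf hMD pf pD qf p n₀
  have hfK : fK B Mf pf qf = f := by
    funext z
    unfold fK
    rw [← hevf z, List.take_of_length_le (hlenf z)]
  have hdK : ∀ ys, dK B MD pD ys = D ys := fun ys => (hevD ys).symm
  refine ⟨n, hn, fun m hm hmp => ?_⟩
  obtain ⟨zs, zs', h1, h2, h3, h4, h5, h6, h7⟩ := h m hm hmp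
  rw [hfK] at h5 h6 h7
  rw [hdK, hdK] at h7
  have hne : zs.map f ≠ [] := by
    intro h8
    rw [List.map_eq_nil_iff] at h8
    rw [h8, List.length_nil] at h1
    omega
  have hne' : zs'.map f ≠ [] := by
    intro h8
    rw [List.map_eq_nil_iff] at h8
    rw [h8, List.length_nil] at h2
    omega
  have h8 : D (zs.map f) ∈ R' := by
    rw [hc _ hne]
    obtain ⟨z, hz, hzL⟩ := h3
    exact ⟨f z, List.mem_map_of_mem hz, (hfL z).1 hzL⟩
  have h9 : D (zs'.map f) ∉ R' := by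
    rw [hc _ hne']
    rintro ⟨x, hx, hxR⟩
    obtain ⟨z, hz, rfl⟩ := List.mem_map.1 hx
    exact h4 z hz ((hfL z).2 hxR)
  rcases h7 with h7 | h7 | h7
  · rw [h7] at h8
    exact absurd h8 h9
  · refine ⟨zs.map f, by rw [List.length_map, h1], fun x hx => ?_, h7⟩
    obtain ⟨z, hz, rfl⟩ := List.mem_map.1 hx
    exact h5 z hz
  · refine ⟨zs'.map f, by rw [List.length_map, h2], fun x hx => ?_, h7⟩
    obtain ⟨z, hz, rfl⟩ := List.mem_map.1 hx
    exact h6 z hz

/-- if NP is closed under complement, then the complement of an NP-hard language is NP-hard -/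
theorem hard_compl (hco : ∀ L : Set Str, InNPO B L → InNPO B Lᶜ) {R : Set Str}
    (hR : NPHardO B R) : NPHardO B Rᶜ := by
  intro L hL
  obtain ⟨f, hf, h⟩ := hR Lᶜ (hco L hL)
  refine ⟨f, hf, fun x => ?_⟩
  rw [Set.mem_compl_iff, ← h x, Set.mem_compl_iff, not_not]

theorem InUPO.inNPO (h : InUPO B L) : InNPO B L := by
  obtain ⟨V, p, h1, h2, _⟩ := h
  exact ⟨V, p, h1, h2⟩

/-- **An oracle with PSPACE = UP = coUP without distillations.** -/
theorem key_main : ∃ B : Str → Bool,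
    (∀ L : Set Str, InPSPACEO B L ∨ InNPO B L → InUPO B L ∧ InUPO B Lᶜ) ∧
    (∃ L : Set Str, InNPO B L ∧ ¬ InPO B L) ∧
    ∀ R : Set Str, NPHardO B R → ∀ (R' : Set Str) (D : List Str → Str), PolyTimeO B seqBits D →
      ((∀ xs : List Str, xs ≠ [] → (D xs ∈ R' ↔ ∃ x ∈ xs, x ∈ R)) ∨
        ∀ xs : List Str, xs ≠ [] → (D xs ∈ R' ↔ ∀ x ∈ xs, x ∈ R)) →
      ∀ (p : Polynomial ℕ) (n₀ : ℕ), ∃ n ≥ n₀, ∀ m, 1 ≤ m → m ≤ p.eval n →
        ∃ xs : List Str, xs.length = m ∧ (∀ x ∈ xs, x.length ≤ n) ∧ m ≤ (D xs).length := by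
  obtain ⟨Mach, hMach⟩ := exists_enum
  have hF := loc_FK Mach
  obtain ⟨κ, hκ, hReq⟩ := exists_keys hF
  have hL := langK_inNPO hF hκ
  have hup : ∀ L : Set Str, InPSPACEO (orcK (FK Mach) κ) L ∨ InNPO (orcK (FK Mach) κ) L →
      InUPO (orcK (FK Mach) κ) L ∧ InUPO (orcK (FK Mach) κ) Lᶜ := by
    rintro L (h | h)
    · obtain ⟨t, y, hy, h⟩ := ps_red hMach h
      exact upo_both hF hκ hy h
    · obtain ⟨t, y, hy, h⟩ := np_red hMach h
      exact upo_both hF hκ hy h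
  refine ⟨orcK (FK Mach) κ, hup, ⟨langK κ, hL, not_inPO hReq⟩, ?_⟩
  rintro R hR R' D hD (h | h) p n₀
  · exact no_or hReq hL hR hD h p n₀
  · have hR2 : NPHardO (orcK (FK Mach) κ) Rᶜ :=
      hard_compl (fun L hL => (hup L (Or.inr hL)).2.inNPO) hR
    refine no_or (R' := R'ᶜ) hReq hL hR2 hD (fun xs hxs => ?_) p n₀
    rw [Set.mem_compl_iff, h xs hxs]
    push Not
    rfl

end ORK
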