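import Pool.Agent.Work.MP_a81742_lc_or.Psp
import Pool.Agent.Work.MP_a81742_lc_or.BlkONP

/-!
# Oracles with one hidden key of every length

`κ M` is the key of length `M`. The string `false :: w` tells whether `w` is the key of its length,
and the string `true :: pairStr (w, y)` is, for the key `w` of length `M`, the value `F B M y` of a
functional which depends only on the strings of length less than `M`.
-/

namespace ORK

open ORDist ORD O2PP PTime

/-- the class UP relative to `A`: every input has at most one witness -/
def InUPO (A : List Bool → Bool) (L : Set (List Bool)) : Prop :=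
  ∃ (V : List Bool × List Bool → Bool) (p : Polynomial ℕ),
    PolyTimeO A pairStr (fun z => [V z]) ∧
    (∀ x : List Bool, x ∈ L ↔ ∃ y : List Bool, y.length ≤ p.eval x.length ∧ V (x, y) = true) ∧
    ∀ x y y' : List Bool, y.length ≤ p.eval x.length → y'.length ≤ p.eval x.length →
      V (x, y) = true → V (x, y') = true → y = y'

/-- the language `R` is NP-hard relative to `A`, under reductions in polynomial time with the
oracle `A` -/
def NPHardO (A : List Bool → Bool) (R : Set (List Bool)) : Prop :=
  ∀ L : Set (List Bool), InNPO A L → ∃ f : List Bool → List Bool,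
    PolyTimeO A (fun x => x) f ∧ ∀ x, x ∈ L ↔ f x ∈ R

/-- one step of the definition of the oracle -/
noncomputable def keyStep (F : (Str → Bool) → ℕ → Str → Bool) (κ : ℕ → Str) (B : Str → Bool)
    (s : Str) : Bool :=
  match s with
  | [] => false
  | false :: w => decide (w = κ w.length)
  | true :: z => decide ((unpairS z).1 = κ (unpairS z).1.length) &&
      (F B (unpairS z).1.length (unpairS z).2 && decide ((unpairS z).1.length < s.length))

/-- the oracle with the keys `κ` -/
noncomputable def orcK (F : (Str → Bool) → ℕ → Str → Bool) (κ : ℕ → Str) : Str → Bool :=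
  fixO (keyStep F κ)

variable {F : (Str → Bool) → ℕ → Str → Bool} {κ κ' : ℕ → Str}

theorem keyStep_congr (hF : Loc F) (κ : ℕ → Str) (B B' : Str → Bool) (s : Str)
    (h : ∀ t : Str, t.length < s.length → B t = B' t) : keyStep F κ B s = keyStep F κ B' s := by
  match s with
  | [] => rfl
  | false :: w => rfl
  | true :: z =>
    by_cases h1 : (unpairS z).1.length < (true :: z).length
    · simp only [keyStep]
      rw [hF B B' _ _ fun t ht => h t (by omega)]
    · simp only [keyStep, decide_eq_false h1, Bool.and_false]

theorem orcK_eq (hF : Loc F) (κ : ℕ → Str) (s : Str) :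
    orcK F κ s = keyStep F κ (orcK F κ) s := fixO_eq (keyStep_congr hF κ) s

theorem orcK_key (hF : Loc F) (κ : ℕ → Str) (w : Str) :
    orcK F κ (false :: w) = decide (w = κ w.length) := orcK_eq hF κ _

theorem orcK_table (hF : Loc F) (hκ : ∀ M, (κ M).length = M) (M : ℕ) (y : Str) :
    orcK F κ (true :: pairStr (κ M, y)) = F (orcK F κ) M y := by
  rw [orcK_eq hF]
  simp only [keyStep, unpairS_pairStr, hκ, decide_true, Bool.true_and]
  rw [decide_eq_true, Bool.and_true]
  rw [List.length_cons, pairStr_len, hκ]
  omega

/-- the key which a query is about -/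
def wq : Str → Str
  | [] => []
  | false :: w => w
  | true :: z => (unpairS z).1

theorem orcK_of_ne (hF : Loc F) {s : Str} (h : wq s ≠ κ (wq s).length) : orcK F κ s = false := by
  rw [orcK_eq hF]
  match s with
  | [] => rfl
  | false :: w =>
    simp only [wq] at h
    simp only [keyStep]
    exact decide_eq_false h
  | true :: z =>
    simp only [wq] at h
    simp only [keyStep]
    rw [decide_eq_false h, Bool.false_and]

theorem wq_length : ∀ s : Str, (wq s).length ≤ s.length
  | [] => Nat.zero_le _
  | false :: w => by simp [wq]
  | true :: z => (unpairS_fst_length z).trans (by simp)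

/-- the oracle is local in the keys -/
theorem orcK_local (hF : Loc F) {b : ℕ} (h : ∀ M < b, κ M = κ' M) : ∀ (n : ℕ) (s : Str),
    s.length = n → (wq s).length < b → orcK F κ s = orcK F κ' s := by
  intro n
  induction n using Nat.strong_induction_on with
  | _ n ih =>
    intro s hs hb
    rw [orcK_eq hF, orcK_eq hF]
    match s with
    | [] => rfl
    | false :: w =>
      simp only [wq] at hb
      simp only [keyStep]
      rw [h _ hb]
    | true :: z =>
      simp only [wq] at hb
      by_cases h1 : (unpairS z).1.length < (true :: z).length
      · simp only [keyStep]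
        rw [h _ hb, hF (orcK F κ) (orcK F κ') _ _ fun t ht => ?_]
        refine ih t.length (by omega) t rfl ?_
        have h2 := wq_length t
        omega
      · simp only [keyStep, decide_eq_false h1, Bool.and_false]

/-- the same answer for two sequences of keys which agree below `b` and which the query does not
meet from `b` on -/
theorem orcK_agree (hF : Loc F) {b : ℕ} (h : ∀ M < b, κ M = κ' M) {s : Str}
    (h1 : b ≤ (wq s).length → wq s ≠ κ (wq s).length)
    (h2 : b ≤ (wq s).length → wq s ≠ κ' (wq s).length) : orcK F κ s = orcK F κ' s := by
  by_cases hb : b ≤ (wq s).length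
  · rw [orcK_of_ne hF (h1 hb), orcK_of_ne hF (h2 hb)]
  · exact orcK_local hF h _ s rfl (by omega)

end ORK
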