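import Pool.Agent.Work.MP_609cce_lc_key.KRun

/-!
# Counting
-/

namespace ORK

open ORDist ORD O2PP PTime

theorem val_true_lt (l : Str) : val (true :: l) < 2 ^ (l.length + 1) := by
  have := val_lt (true :: l)
  simpa using this

theorem le_val_true (l : Str) : 2 ^ l.length ≤ val (true :: l) := by
  rw [val, cond_true]
  omega

theorem val_true_inj {l l' : Str} (h : val (true :: l) = val (true :: l')) : l = l' := by
  have h1 := val_true_lt l
  have h2 := val_true_lt l'
  have h3 := le_val_true l
  have h4 := le_val_true l'
  have h5 : l.length = l'.length := by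
    rcases lt_trichotomy l.length l'.length with h5 | h5 | h5
    · have : 2 ^ (l.length + 1) ≤ 2 ^ l'.length := Nat.pow_le_pow_right (by norm_num) h5
      omega
    · exact h5
    · have : 2 ^ (l'.length + 1) ≤ 2 ^ l.length := Nat.pow_le_pow_right (by norm_num) h5
      omega
  have h6 : true :: l = true :: l' := val_inj (by simp [h5]) h
  exact (List.cons_inj_right _).1 h6

/-- `a` is detected: the outputs on sequences with and without `a` are different and short -/
def Bad {I : Type} (m : ℕ) (g : (Fin m → Option I) → Str) (a : I) : Prop :=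
  ∀ c c' : Fin m → Option I, (∃ i, c i = some a) → (∀ i, c' i ≠ some a) →
    g c ≠ g c' ∧ (g c).length < m ∧ (g c').length < m

/-- fewer than `m` elements are detected -/
theorem bad_card {I : Type} {m : ℕ} (hm : 1 ≤ m) {g : (Fin m → Option I) → Str} {S : Finset I}
    (hS : ∀ a ∈ S, Bad m g a) : S.card < m := by
  classical
  by_contra hc
  rw [not_lt] at hc
  obtain ⟨T, hTS, hT⟩ := Finset.exists_subset_card_eq hc
  let e : Fin m ≃ T := (Fin.castOrderIso hT.symm).toEquiv.trans T.equivFin.symm
  let c : (Fin m → Bool) → Fin m → Option I := fun u i => if u i then some (e i).1 else none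
  have key : ∀ u u' : Fin m → Bool, ∀ i, u i = true → u' i = false →
      g (c u) ≠ g (c u') ∧ (g (c u)).length < m ∧ (g (c u')).length < m := by
    intro u u' i hi hi'
    refine hS (e i).1 (hTS (e i).2) _ _ ⟨i, by simp [c, hi]⟩ fun j hj => ?_
    simp only [c] at hj
    split_ifs at hj with h1
    · have h2 : e j = e i := Subtype.ext (Option.some.inj hj)
      have h3 : j = i := e.injective h2
      rw [h3, hi'] at h1
      exact absurd h1 (by simp)
  have hne : ∀ u u' : Fin m → Bool, u ≠ u' → g (c u) ≠ g (c u') := by
    intro u u' h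
    obtain ⟨i, hi⟩ := Function.ne_iff.1 h
    cases h1 : u i with
    | true =>
      cases h2 : u' i with
      | true => rw [h1, h2] at hi; exact absurd rfl hi
      | false => exact (key u u' i h1 h2).1
    | false =>
      cases h2 : u' i with
      | true => exact fun h => (key u' u i h2 h1).1 h.symm
      | false => rw [h1, h2] at hi; exact absurd rfl hi
  have hlen : ∀ u : Fin m → Bool, (g (c u)).length < m := by
    intro u
    let i : Fin m := ⟨0, hm⟩
    let u' : Fin m → Bool := fun j => !u j
    cases h1 : u i with
    | true => exact (key u u' i h1 (by simp [u', h1])).2.1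
    | false => exact (key u' u i (by simp [u', h1]) h1).2.2
  have hmaps : ∀ u ∈ (Finset.univ : Finset (Fin m → Bool)),
      val (true :: g (c u)) ∈ Finset.Ico 1 (2 ^ m) := by
    intro u _
    rw [Finset.mem_Ico]
    have h1 := val_true_lt (g (c u))
    have h2 := le_val_true (g (c u))
    have h3 : 2 ^ ((g (c u)).length + 1) ≤ 2 ^ m := Nat.pow_le_pow_right (by norm_num) (hlen u)
    have h4 : 0 < 2 ^ (g (c u)).length := by positivity
    omega
  have hcard : (Finset.Ico 1 (2 ^ m)).card < (Finset.univ : Finset (Fin m → Bool)).card := by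
    rw [Nat.card_Ico, Finset.card_univ, Fintype.card_fun, Fintype.card_bool, Fintype.card_fin]
    have : 0 < 2 ^ m := by positivity
    omega
  obtain ⟨u, _, u', _, huu, heq⟩ := Finset.exists_ne_map_eq_of_card_lt_of_maps_to hcard hmaps
  exact hne u u' huu (val_true_inj heq)

/-- an element which is not detected for any `m ≤ P` -/
theorem exists_good {I : Type} [Fintype I] {P : ℕ}
    (g : ∀ m : ℕ, (Fin m → Option I) → Str) (h : P * P < Fintype.card I) :
    ∃ a : I, ∀ m, 1 ≤ m → m ≤ P → ¬ Bad m (g m) a := by
  classical
  let S : Finset I := (Finset.Icc 1 P).biUnion fun m => Finset.univ.filter fun a => Bad m (g m) a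
  have hS : S.card ≤ P * P := by
    refine Finset.card_biUnion_le.trans ?_
    have h1 : ∀ m ∈ Finset.Icc 1 P, (Finset.univ.filter fun a => Bad m (g m) a).card ≤ P := by
      intro m hm
      rw [Finset.mem_Icc] at hm
      have := bad_card (S := Finset.univ.filter fun a => Bad m (g m) a) hm.1
        fun a ha => (Finset.mem_filter.1 ha).2
      omega
    refine (Finset.sum_le_card_nsmul _ _ _ h1).trans ?_
    rw [Nat.card_Icc, smul_eq_mul]
    exact Nat.mul_le_mul_right _ (by omega)
  obtain ⟨a, ha⟩ : ∃ a, a ∉ S := by
    by_contra hc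
    push Not at hc
    have h1 : S = Finset.univ := Finset.eq_univ_iff_forall.2 hc
    rw [h1, Finset.card_univ] at hS
    omega
  refine ⟨a, fun m h1 h2 h3 => ha ?_⟩
  exact Finset.mem_biUnion.2 ⟨m, Finset.mem_Icc.2 ⟨h1, h2⟩,
    Finset.mem_filter.2 ⟨Finset.mem_univ _, h3⟩⟩

/-- a continuation outside a short list -/
theorem exists_fresh {N : ℕ} (W : List Str) (h : W.length < 2 ^ N) (a : Str) :
    ∃ u : Str, u.length = N ∧ a ++ u ∉ W := by
  classical
  by_contra hc
  push Not at hc
  have h1 : (Finset.range (2 ^ N)).card ≤ W.toFinset.card := by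
    refine Finset.card_le_card_of_injOn (fun i => a ++ bstr N i) ?_ ?_
    · intro i _
      exact List.mem_toFinset.2 (hc _ (bstr_length N i))
    · intro i hi j hj hij
      have h2 : bstr N i = bstr N j := List.append_cancel_left hij
      have h3 := congrArg val h2
      rwa [val_bstr (Finset.mem_range.1 hi), val_bstr (Finset.mem_range.1 hj)] at h3
  rw [Finset.card_range] at h1
  have h2 := W.toFinset_card_le
  omega

end ORK
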