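import Pool.Agent.Work.MP_609cce_lc_key.KDefs

/-!
# Clocked runs of oracle procedures and their queries
-/

namespace ORK

open ORDist ORD O2PP PTime

/-- the output of `M` on the input `x`, with at most `t` further queries, `a` being the answers so
far -/
def ev (B : Str → Bool) (M : OProc) (x : Str) : ℕ → Str → Str
  | 0, a => bif (M (x, a)).1 then [] else (M (x, a)).2
  | t + 1, a => bif (M (x, a)).1 then ev B M x t (a ++ [B (M (x, a)).2]) else (M (x, a)).2

/-- the queries of this run -/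
def qs (B : Str → Bool) (M : OProc) (x : Str) : ℕ → Str → List Str
  | 0, _ => []
  | t + 1, a => bif (M (x, a)).1 then (M (x, a)).2 :: qs B M x t (a ++ [B (M (x, a)).2]) else []

theorem qs_length (B : Str → Bool) (M : OProc) (x : Str) : ∀ (t : ℕ) (a : Str),
    (qs B M x t a).length ≤ t
  | 0, a => Nat.zero_le _
  | t + 1, a => by
    rw [qs]
    cases (M (x, a)).1
    · simp
    · have := qs_length B M x t (a ++ [B (M (x, a)).2])
      simp only [cond_true, List.length_cons]
      omega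

theorem ev_congr {B B' : Str → Bool} {M : OProc} {x : Str} : ∀ (t : ℕ) (a : Str),
    (∀ s ∈ qs B M x t a, B s = B' s) → ev B M x t a = ev B' M x t a
  | 0, a, _ => rfl
  | t + 1, a, h => by
    rw [ev, ev]
    rw [qs] at h
    cases hc : (M (x, a)).1
    · rfl
    · rw [hc, cond_true] at h
      rw [cond_true, cond_true, ← h _ (List.mem_cons_self ..)]
      exact ev_congr t _ fun s hs => h s (List.mem_cons_of_mem _ hs)

theorem ev_of_run {B : Str → Bool} {M : OProc} {x y : Str} {k : ℕ}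
    (h1 : ∀ j < k, (M (x, answers B M x j)).1 = true)
    (h2 : M (x, answers B M x k) = (false, y)) : ∀ j i t, i + j = k → j ≤ t →
    ev B M x t (answers B M x i) = y := by
  intro j
  induction j with
  | zero =>
    intro i t hi _
    have e : i = k := by omega
    subst e
    cases t <;> simp [ev, h2]
  | succ j ih =>
    intro i t hi ht
    obtain ⟨t, rfl⟩ : ∃ t', t = t' + 1 := ⟨t - 1, by omega⟩
    rw [ev, h1 i (by omega), cond_true]
    exact ih (i + 1) t (by omega) (by omega)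

/-- a function in polynomial time with the oracle `B` is given by a clocked run -/
theorem exists_ev {B : Str → Bool} {α : Type} {ea : α → Str} {f : α → Str}
    (h : PolyTimeO B ea f) : ∃ (M : OProc) (p q : Polynomial ℕ), PT M ∧
      (∀ a, f a = ev B M (ea a) (p.eval (ea a).length) []) ∧
      ∀ a, (f a).length ≤ q.eval (ea a).length := by
  obtain ⟨M, hM, p, hp⟩ := h
  obtain ⟨s, hs⟩ := exists_act_bound (pt_of_polyTime hM)
  refine ⟨M, p, s.comp (Polynomial.X + p), pt_of_polyTime hM, fun a => ?_, fun a => ?_⟩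
  · obtain ⟨k, hk, h1, h2⟩ := hp a
    exact (ev_of_run h1 h2 k 0 _ (by omega) hk).symm
  · obtain ⟨k, hk, h1, h2⟩ := hp a
    have h3 := hs (ea a) (answers B M (ea a) k)
    rw [h2, length_answers] at h3
    have h4 := eval_mono s (Nat.add_le_add_left hk (ea a).length)
    simp only at h3 h4
    simp only [Polynomial.eval_comp, Polynomial.eval_add, Polynomial.eval_X]
    omega

/-- a generic limit lemma: countably many dense open requirements on sequences -/
theorem exists_generic {X ι : Type} [Countable ι] (Ok : ℕ → X → Prop) (x₀ : ℕ → X)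
    (h0 : ∀ M, Ok M (x₀ M)) (R : ι → (ℕ → X) → Prop)
    (h : ∀ (e : ι) (κ : ℕ → X) (b : ℕ), (∀ M, Ok M (κ M)) → ∃ (κ₁ : ℕ → X) (b₁ : ℕ),
      (∀ M, Ok M (κ₁ M)) ∧ b ≤ b₁ ∧ (∀ M < b, κ₁ M = κ M) ∧
      ∀ κ' : ℕ → X, (∀ M, Ok M (κ' M)) → (∀ M < b₁, κ' M = κ₁ M) → R e κ') :
    ∃ κ : ℕ → X, (∀ M, Ok M (κ M)) ∧ ∀ e, R e κ := by
  classical
  rcases isEmpty_or_nonempty ι with hι | hι
  · exact ⟨x₀, h0, fun e => (hι.false e).elim⟩
  obtain ⟨g, hg⟩ := exists_surjective_nat ι
  let C : Type := {c : (ℕ → X) × ℕ // ∀ M, Ok M (c.1 M)}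
  have step : ∀ (e : ι) (c : C), ∃ c' : C, c.1.2 + 1 ≤ c'.1.2 ∧
      (∀ M < c.1.2, c'.1.1 M = c.1.1 M) ∧
      ∀ κ : ℕ → X, (∀ M, Ok M (κ M)) → (∀ M < c'.1.2, κ M = c'.1.1 M) → R e κ := by
    intro e c
    obtain ⟨κ₁, b₁, h1, h2, h3, h4⟩ := h e c.1.1 (c.1.2 + 1) c.2
    exact ⟨⟨(κ₁, b₁), h1⟩, h2, fun M hM => h3 M (by omega), h4⟩
  choose next hn1 hn2 hn3 using step
  let c₀ : C := ⟨(x₀, 0), h0⟩
  let seq : ℕ → C := fun k => Nat.rec c₀ (fun i c => next (g i) c) k
  have hseq : ∀ k, seq (k + 1) = next (g k) (seq k) := fun _ => rfl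
  have hmono : ∀ k m, k ≤ m → (seq k).1.2 ≤ (seq m).1.2 ∧
      ∀ M < (seq k).1.2, (seq m).1.1 M = (seq k).1.1 M := by
    intro k m hkm
    induction m, hkm using Nat.le_induction with
    | base => exact ⟨le_rfl, fun _ _ => rfl⟩
    | succ m _ ih =>
      rw [hseq]
      have h1 := hn1 (g m) (seq m)
      refine ⟨by omega, fun M hM => ?_⟩
      rw [hn2 (g m) (seq m) M (hM.trans_le ih.1)]
      exact ih.2 M hM
  have hge : ∀ k, k ≤ (seq k).1.2 := by
    intro k
    induction k with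
    | zero => exact Nat.zero_le _
    | succ k ih =>
      have h1 := hn1 (g k) (seq k)
      rw [hseq]
      omega
  let κ : ℕ → X := fun M => (seq (M + 1)).1.1 M
  have hκ : ∀ k M, M < (seq k).1.2 → κ M = (seq k).1.1 M := by
    intro k M hM
    have hlw : M < (seq (M + 1)).1.2 := lt_of_lt_of_le (Nat.lt_succ_self _) (hge _)
    rcases le_total k (M + 1) with h1 | h1
    · exact (hmono _ _ h1).2 M hM
    · exact ((hmono _ _ h1).2 M hlw).symm
  have hok : ∀ M, Ok M (κ M) := fun M => (seq (M + 1)).2 M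
  refine ⟨κ, hok, fun e => ?_⟩
  obtain ⟨k, rfl⟩ := hg e
  refine hn3 (g k) (seq k) κ hok fun M hM => ?_
  have h1 := hκ (k + 1) M (by rw [hseq]; exact hM)
  rw [h1, hseq]

end ORK
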