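import Pool.Agent.Work.MP_609cce_lc_key.KPigeon

/-!
# The stage: no compression to fewer bits than strings
-/

namespace ORK

open ORDist ORD O2PP PTime

/-- the function of a reduction, cut off at the length `q (|z|)` -/
def fK (B : Str → Bool) (Mf : OProc) (pf q : Polynomial ℕ) (z : Str) : Str :=
  (ev B Mf z (pf.eval z.length) []).take (q.eval z.length)

/-- the function of a compression -/
def dK (B : Str → Bool) (MD : OProc) (pD : Polynomial ℕ) (ys : List Str) : Str :=
  ev B MD (seqBits ys) (pD.eval (seqBits ys).length) []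

/-- the language of the prefixes of the keys -/
def langK (κ : ℕ → Str) : Set Str := {z | (unpairS z).2 <+: κ (unpairS z).1.length}

/-- the requirement: the reduction followed by the compression fails for all numbers `m ≤ p (n)` of
strings -/
def Req (B : Str → Bool) (L : Set Str) (Mf MD : OProc) (pf pD q p : Polynomial ℕ) (n₀ : ℕ) :
    Prop :=
  ∃ n ≥ n₀, ∀ m, 1 ≤ m → m ≤ p.eval n → ∃ zs zs' : List Str, zs.length = m ∧ zs'.length = m ∧
    (∃ z ∈ zs, z ∈ L) ∧ (∀ z ∈ zs', z ∉ L) ∧
    (∀ z ∈ zs, (fK B Mf pf q z).length ≤ n) ∧ (∀ z ∈ zs', (fK B Mf pf q z).length ≤ n) ∧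
    (dK B MD pD (zs.map (fK B Mf pf q)) = dK B MD pD (zs'.map (fK B Mf pf q)) ∨
      m ≤ (dK B MD pD (zs.map (fK B Mf pf q))).length ∨
      m ≤ (dK B MD pD (zs'.map (fK B Mf pf q))).length)

theorem seqBits_length_le {n : ℕ} : ∀ {ys : List Str}, (∀ y ∈ ys, y.length ≤ n) →
    (seqBits ys).length ≤ ys.length * (2 * n + 1)
  | [], _ => by simp [seqBits]
  | y :: ys, h => by
    have h1 := seqBits_length_le fun y' hy' => h y' (List.mem_cons_of_mem _ hy')
    have h2 := h y (List.mem_cons_self ..)
    rw [seqBits, pairStr_len, List.length_cons, Nat.add_mul]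
    omega

/-- the instances of level `2 N` -/
def inst (N : ℕ) : Option (Fin (2 ^ N)) → Str
  | none => pairStr (List.replicate (2 * N) true, List.replicate (2 * N + 1) true)
  | some i => pairStr (List.replicate (2 * N) true, bstr N i.1)

theorem inst_length (N : ℕ) (a : Option (Fin (2 ^ N))) : (inst N a).length ≤ 6 * N + 2 := by
  cases a with
  | none => rw [inst, pairStr_len, List.length_replicate, List.length_replicate]; omega
  | some i => rw [inst, pairStr_len, List.length_replicate, bstr_length]; omega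

theorem inst_mem {N : ℕ} {κ : ℕ → Str} (h : (κ (2 * N)).length = 2 * N) {i : Fin (2 ^ N)}
    {u : Str} (hκ : κ (2 * N) = bstr N i.1 ++ u) (a : Option (Fin (2 ^ N))) :
    inst N a ∈ langK κ ↔ a = some i := by
  cases a with
  | none =>
    simp only [langK, inst, Set.mem_ofPred_eq, unpairS_pairStr, List.length_replicate]
    constructor
    · intro h1
      have h2 := h1.length_le
      rw [List.length_replicate, h] at h2
      omega
    · intro h1
      exact absurd h1 (by simp)
  | some j =>
    simp only [langK, inst, Set.mem_ofPred_eq, unpairS_pairStr, List.length_replicate]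
    constructor
    · intro h1
      have h2 : bstr N j.1 = bstr N i.1 := by
        have h3 : bstr N i.1 <+: κ (2 * N) := ⟨u, hκ.symm⟩
        have h4 := List.prefix_of_prefix_length_le h1 h3 (by rw [bstr_length, bstr_length])
        exact h4.eq_of_length (by rw [bstr_length, bstr_length])
      have h3 := congrArg val h2
      rw [val_bstr j.2, val_bstr i.2] at h3
      rw [Fin.ext h3]
    · intro h1
      rw [Option.some.inj h1]
      exact ⟨u, hκ.symm⟩

/-- the queries of the reduction on a list of instances and of the compression on the images -/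
def allQ (B : Str → Bool) (Mf MD : OProc) (pf pD q : Polynomial ℕ) (zs : List Str) : List Str :=
  (zs.flatMap fun z => qs B Mf z (pf.eval z.length) []) ++
    qs B MD (seqBits (zs.map (fK B Mf pf q)))
      (pD.eval (seqBits (zs.map (fK B Mf pf q))).length) []

theorem allQ_length {B : Str → Bool} {Mf MD : OProc} {pf pD q : Polynomial ℕ} {zs : List Str}
    {Z : ℕ} (hz : ∀ z ∈ zs, z.length ≤ Z) : (allQ B Mf MD pf pD q zs).length ≤
      zs.length * pf.eval Z + pD.eval (zs.length * (2 * q.eval Z + 1)) := by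
  rw [allQ, List.length_append, List.length_flatMap]
  have h1 : (zs.map fun z => (qs B Mf z (pf.eval z.length) []).length).sum ≤
      zs.length * pf.eval Z := by
    have := List.sum_le_card_nsmul (zs.map fun z => (qs B Mf z (pf.eval z.length) []).length)
      (pf.eval Z) (by
        intro x hx
        obtain ⟨z, hz1, rfl⟩ := List.mem_map.1 hx
        exact (qs_length _ _ _ _ _).trans (eval_mono pf (hz z hz1)))
    rwa [List.length_map, smul_eq_mul] at this
  have h2 : (seqBits (zs.map (fK B Mf pf q))).length ≤ zs.length * (2 * q.eval Z + 1) := by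
    have := seqBits_length_le (n := q.eval Z) (ys := zs.map (fK B Mf pf q)) (by
      intro y hy
      obtain ⟨z, hz1, rfl⟩ := List.mem_map.1 hy
      exact (List.length_take_le _ _).trans (eval_mono q (hz z hz1)))
    rwa [List.length_map] at this
  have h3 := (qs_length B MD (seqBits (zs.map (fK B Mf pf q)))
    (pD.eval (seqBits (zs.map (fK B Mf pf q))).length) []).trans (eval_mono pD h2)
  exact Nat.add_le_add h1 h3

theorem run_congr {B B' : Str → Bool} {Mf MD : OProc} {pf pD q : Polynomial ℕ} {zs : List Str}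
    (h : ∀ s ∈ allQ B Mf MD pf pD q zs, B s = B' s) :
    (∀ z ∈ zs, fK B Mf pf q z = fK B' Mf pf q z) ∧
    zs.map (fK B Mf pf q) = zs.map (fK B' Mf pf q) ∧
    dK B MD pD (zs.map (fK B Mf pf q)) = dK B' MD pD (zs.map (fK B' Mf pf q)) := by
  have h1 : ∀ z ∈ zs, fK B Mf pf q z = fK B' Mf pf q z := by
    intro z hz
    unfold fK
    rw [ev_congr _ _ fun s hs => h s ?_]
    exact List.mem_append_left _ (List.mem_flatMap.2 ⟨z, hz, hs⟩)
  have h2 : zs.map (fK B Mf pf q) = zs.map (fK B' Mf pf q) := List.map_congr_left h1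
  refine ⟨h1, h2, ?_⟩
  rw [← h2]
  exact ev_congr _ _ fun s hs => h s (List.mem_append_right _ hs)

/-- **Stage lemma.** -/
theorem stage {F : (Str → Bool) → ℕ → Str → Bool} (hF : Loc F) (Mf MD : OProc)
    (pf pD q p : Polynomial ℕ) (n₀ : ℕ) (κ : ℕ → Str) (b : ℕ) (hκ : ∀ M, (κ M).length = M) :
    ∃ (κ₁ : ℕ → Str) (b₁ : ℕ), (∀ M, (κ₁ M).length = M) ∧ b ≤ b₁ ∧ (∀ M < b, κ₁ M = κ M) ∧
      ∀ κ' : ℕ → Str, (∀ M, (κ' M).length = M) → (∀ M < b₁, κ' M = κ₁ M) →
        Req (orcK F κ') (langK κ') Mf MD pf pD q p n₀ := by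
  classical
  let Zp : Polynomial ℕ := 6 * Polynomial.X + 2
  let np : Polynomial ℕ := q.comp Zp + Polynomial.X
  let Pp : Polynomial ℕ := p.comp np
  let Tp : Polynomial ℕ := Pp * pf.comp Zp + pD.comp (Pp * (2 * q.comp Zp + 1))
  obtain ⟨N, hN, hbig⟩ := poly_lt_two_pow (Pp * Pp + Pp * (2 * Tp)) (max b n₀ + 1)
  set Z : ℕ := 6 * N + 2 with hZ
  set n : ℕ := q.eval Z + N with hn
  set P : ℕ := p.eval n with hP
  set T : ℕ := P * pf.eval Z + pD.eval (P * (2 * q.eval Z + 1)) with hT
  have hbig' : P * P + P * (2 * T) < 2 ^ N := by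
    have e1 : Zp.eval N = Z := by simp [Zp, hZ]
    have e2 : np.eval N = n := by simp [np, e1, hn]
    have e3 : Pp.eval N = P := by simp [Pp, e2, hP]
    have e4 : Tp.eval N = T := by simp [Tp, e1, e3, hT]
    simpa [e3, e4] using hbig
  -- the blank oracle
  let κ0 : ℕ → Str := fun M => if M < 2 * N then κ M else []
  let B0 : Str → Bool := orcK F κ0
  let g : ∀ m : ℕ, (Fin m → Option (Fin (2 ^ N))) → Str := fun m c =>
    dK B0 MD pD ((List.ofFn fun i => inst N (c i)).map (fK B0 Mf pf q))
  obtain ⟨i, hi⟩ := exists_good (I := Fin (2 ^ N)) (P := P) g (by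
    rw [Fintype.card_fin]
    omega)
  have hex : ∀ m : ℕ, ∃ c c' : Fin m → Option (Fin (2 ^ N)), 1 ≤ m → m ≤ P →
      (∃ j, c j = some i) ∧ (∀ j, c' j ≠ some i) ∧
      (g m c = g m c' ∨ m ≤ (g m c).length ∨ m ≤ (g m c').length) := by
    intro m
    by_cases hm : 1 ≤ m ∧ m ≤ P
    · have h1 := hi m hm.1 hm.2
      unfold Bad at h1
      push Not at h1
      obtain ⟨c, c', h2, h3, h4⟩ := h1
      refine ⟨c, c', fun _ _ => ⟨h2, h3, ?_⟩⟩
      by_cases h5 : g m c = g m c'
      · exact Or.inl h5
      · by_cases h6 : (g m c).length < m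
        · exact Or.inr (Or.inr (h4 h5 h6))
        · exact Or.inr (Or.inl (by omega))
    · exact ⟨fun _ => none, fun _ => none, fun h1 h2 => absurd ⟨h1, h2⟩ hm⟩
  choose c c' hc using hex
  let zs : ℕ → List Str := fun m => List.ofFn fun j => inst N (c m j)
  let zs' : ℕ → List Str := fun m => List.ofFn fun j => inst N (c' m j)
  have hzs : ∀ m, ∀ z ∈ zs m, z.length ≤ Z := by
    intro m z hz
    obtain ⟨j, rfl⟩ := (List.mem_ofFn' _ _).1 hz
    exact inst_length N _
  have hzs' : ∀ m, ∀ z ∈ zs' m, z.length ≤ Z := by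
    intro m z hz
    obtain ⟨j, rfl⟩ := (List.mem_ofFn' _ _).1 hz
    exact inst_length N _
  let Q : List Str := (List.range P).flatMap fun j =>
    allQ B0 Mf MD pf pD q (zs (j + 1)) ++ allQ B0 Mf MD pf pD q (zs' (j + 1))
  have hQlen : Q.length ≤ P * (2 * T) := by
    have h1 : ∀ j ∈ List.range P, ((allQ B0 Mf MD pf pD q (zs (j + 1)) ++
        allQ B0 Mf MD pf pD q (zs' (j + 1))).length) ≤ 2 * T := by
      intro j hj
      rw [List.mem_range] at hj
      rw [List.length_append]
      have h2 := allQ_length (B := B0) (Mf := Mf) (MD := MD) (pf := pf) (pD := pD) (q := q)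
        (hzs (j + 1))
      have h3 := allQ_length (B := B0) (Mf := Mf) (MD := MD) (pf := pf) (pD := pD) (q := q)
        (hzs' (j + 1))
      have h4 : (zs (j + 1)).length = j + 1 := List.length_ofFn
      have h5 : (zs' (j + 1)).length = j + 1 := List.length_ofFn
      rw [h4] at h2
      rw [h5] at h3
      have h6 : (j + 1) * pf.eval Z + pD.eval ((j + 1) * (2 * q.eval Z + 1)) ≤ T :=
        Nat.add_le_add (Nat.mul_le_mul_right _ hj)
          (eval_mono pD (Nat.mul_le_mul_right _ hj))
      omega
    have h2 := List.sum_le_card_nsmul ((List.range P).map fun j =>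
      (allQ B0 Mf MD pf pD q (zs (j + 1)) ++ allQ B0 Mf MD pf pD q (zs' (j + 1))).length)
      (2 * T) (by
        intro x hx
        obtain ⟨j, hj, rfl⟩ := List.mem_map.1 hx
        exact h1 j hj)
    rw [List.length_map, List.length_range, smul_eq_mul] at h2
    rw [show Q.length = _ from List.length_flatMap ..]
    exact h2
  let W : List Str := Q.map wq
  have hW : W.length < 2 ^ N := by
    rw [List.length_map]
    omega
  have hpre : ∀ M : ℕ, ∃ u : Str, u.length = N ∧
      (if M = 2 * N then bstr N i.1 else List.replicate (M - N) true) ++ u ∉ W :=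
    fun M => exists_fresh W hW _
  choose u hu1 hu2 using hpre
  let κ₁ : ℕ → Str := fun M => if M < 2 * N then κ M else
    (if M = 2 * N then bstr N i.1 else List.replicate (M - N) true) ++ u M
  obtain ⟨b2, hb2⟩ : ∃ b2, ∀ w ∈ W, w.length < b2 :=
    ⟨(W.map List.length).sum + 1, fun w hw => Nat.lt_succ_of_le
      (List.single_le_sum (fun _ _ => Nat.zero_le _) _ (List.mem_map_of_mem hw))⟩
  refine ⟨κ₁, max b2 (2 * N + 1), ?_, ?_, ?_, ?_⟩
  · intro M
    simp only [κ₁]
    split_ifs with h1 h2
    · exact hκ M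
    · rw [List.length_append, bstr_length, hu1]
      omega
    · rw [List.length_append, List.length_replicate, hu1]
      omega
  · have := le_max_right b2 (2 * N + 1)
    have := le_max_left b n₀
    omega
  · intro M hM
    have := le_max_left b n₀
    simp only [κ₁]
    rw [if_pos (by omega)]
  · intro κ' hκ' hag
    have hlow : ∀ M < 2 * N, κ0 M = κ' M := by
      intro M hM
      have h1 := le_max_right b2 (2 * N + 1)
      rw [hag M (by omega)]
      simp only [κ0, κ₁]
      rw [if_pos hM, if_pos hM]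
    have hQ : ∀ s ∈ Q, B0 s = orcK F κ' s := by
      intro s hs
      have hsW : wq s ∈ W := List.mem_map_of_mem hs
      refine orcK_agree hF hlow (fun h1 => ?_) (fun h1 => ?_)
      · simp only [κ0]
        rw [if_neg (by omega)]
        intro h2
        rw [h2, List.length_nil] at h1
        omega
      · have h2 := hb2 _ hsW
        have h3 := le_max_left b2 (2 * N + 1)
        rw [hag _ (by omega)]
        simp only [κ₁]
        rw [if_neg (by omega)]
        intro h4
        exact hu2 (wq s).length (h4 ▸ hsW)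
    have hkey : κ' (2 * N) = bstr N i.1 ++ u (2 * N) := by
      have h3 := le_max_right b2 (2 * N + 1)
      rw [hag _ (by omega)]
      simp only [κ₁]
      rw [if_neg (by omega), if_pos trivial]
    have hmemL := inst_mem (hκ' (2 * N)) hkey
    refine ⟨n, by have := le_max_right b n₀; omega, fun m hm1 hmP => ?_⟩
    obtain ⟨h1, h2, h3⟩ := hc m hm1 hmP
    have hmP' : m ≤ P := hmP
    have hsub : ∀ s ∈ allQ B0 Mf MD pf pD q (zs m), B0 s = orcK F κ' s := by
      intro s hs
      refine hQ s (List.mem_flatMap.2 ⟨m - 1, List.mem_range.2 (by omega), ?_⟩)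
      rw [Nat.sub_add_cancel hm1]
      exact List.mem_append_left _ hs
    have hsub' : ∀ s ∈ allQ B0 Mf MD pf pD q (zs' m), B0 s = orcK F κ' s := by
      intro s hs
      refine hQ s (List.mem_flatMap.2 ⟨m - 1, List.mem_range.2 (by omega), ?_⟩)
      rw [Nat.sub_add_cancel hm1]
      exact List.mem_append_right _ hs
    obtain ⟨_, _, h6⟩ := run_congr hsub
    obtain ⟨_, _, h7⟩ := run_congr hsub'
    refine ⟨zs m, zs' m, List.length_ofFn, List.length_ofFn, ?_, ?_, ?_, ?_, ?_⟩
    · obtain ⟨j, hj⟩ := h1
      exact ⟨inst N (c m j), (List.mem_ofFn' _ _).2 ⟨j, rfl⟩, (hmemL _).2 hj⟩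
    · intro z hz hzL
      obtain ⟨j, rfl⟩ := (List.mem_ofFn' _ _).1 hz
      exact h2 j ((hmemL _).1 hzL)
    · intro z hz
      exact (List.length_take_le _ _).trans ((eval_mono q (hzs m z hz)).trans (by simp only; omega))
    · intro z hz
      exact (List.length_take_le _ _).trans ((eval_mono q (hzs' m z hz)).trans (by simp only; omega))
    · rw [← h6, ← h7]
      exact h3

end ORK
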